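import Pool.Agent.Helper38.Weiss.Api
import Pool.Agent.Helper36.Weiss.U2

/-! MP_6b0aee_an, packet W-Z: zones. -/

open Set Filter Topology MeasureTheory Pool.Agent.Helper38.Weiss

namespace Pool.Agent.Helper49.Weiss

section boolean

variable {X ι : Type*} [MeasurableSpace X]

open Classical in
theorem pred_eq (I : Finset ι) (A : ι → Set X) (Q : Finset ι → Prop) :
    {x | Q (I.filter (fun i => x ∈ A i))} =
      ⋃ s ∈ I.powerset.filter Q, ⋂ i ∈ I, (if i ∈ s then A i else (A i)ᶜ) := by
  ext x
  simp only [mem_ofPred_eq, mem_iUnion, Finset.mem_filter, Finset.mem_powerset, mem_iInter,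
    exists_prop]
  constructor
  · intro h
    refine ⟨_, ⟨Finset.filter_subset _ _, h⟩, ?_⟩
    intro i hi
    by_cases hx : x ∈ A i
    · rw [if_pos (Finset.mem_filter.mpr ⟨hi, hx⟩)]
      exact hx
    · rw [if_neg (show ¬ i ∈ I.filter (fun i => x ∈ A i) from
        fun h' => hx (Finset.mem_filter.mp h').2)]
      exact hx
  · rintro ⟨s, ⟨hs, hQ⟩, h⟩
    have : I.filter (fun i => x ∈ A i) = s := by
      ext i
      rw [Finset.mem_filter]
      constructor
      · rintro ⟨hi, hx⟩
        by_contra hcon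
        have := h i hi
        rw [if_neg hcon] at this
        exact this hx
      · intro hi
        have := h i (hs hi)
        rw [if_pos hi] at this
        exact ⟨hs hi, this⟩
    rwa [this]

open Classical in
theorem measurableSet_pred (I : Finset ι) (A : ι → Set X) (hA : ∀ i ∈ I, MeasurableSet (A i))
    (Q : Finset ι → Prop) : MeasurableSet {x | Q (I.filter (fun i => x ∈ A i))} := by
  rw [pred_eq]
  refine Finset.measurableSet_biUnion _ fun s _ => Finset.measurableSet_biInter _ fun i hi => ?_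
  split_ifs
  · exact hA i hi
  · exact (hA i hi).compl

open Classical in
theorem nf_pred [TopologicalSpace X] {ν : Measure X} (I : Finset ι) (A : ι → Set X)
    (hA : ∀ i ∈ I, ν (frontier (A i)) = 0) (Q : Finset ι → Prop) :
    ν (frontier {x | Q (I.filter (fun i => x ∈ A i))}) = 0 := by
  rw [pred_eq]
  have h1 : ∀ (J : Finset (Finset ι)) (B : Finset ι → Set X), (∀ s ∈ J, ν (frontier (B s)) = 0) →
      ν (frontier (⋃ s ∈ J, B s)) = 0 := by
    intro J B hB
    rw [← frontier_compl, compl_iUnion₂]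
    refine Pool.Agent.Helper36.Weiss.nf_biInter _ _ fun s hs => ?_
    rw [frontier_compl]
    exact hB s hs
  refine h1 _ _ fun s _ => ?_
  refine Pool.Agent.Helper36.Weiss.nf_biInter _ _ fun i hi => ?_
  split_ifs
  · exact hA i hi
  · rw [frontier_compl]
    exact hA i hi

theorem nf_preimage [TopologicalSpace X] [BorelSpace X] {ν : Measure X} {F : X → X}
    (hFc : Continuous F) (hF : MeasurePreserving F ν ν) (t : ℕ) {B : Set X}
    (hB : ν (frontier B) = 0) : ν (frontier ((F^[t]) ⁻¹' B)) = 0 := by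
  refine measure_mono_null ((hFc.iterate t).frontier_preimage_subset _) ?_
  rw [(hF.iterate t).measure_preimage isClosed_frontier.measurableSet.nullMeasurableSet]
  exact hB

end boolean

open Classical in
/-- the number of complete visits to `D` in `[0, W)` -/
noncomputable def vis {X : Type*} (F : X → X) (D : Set X) (N W : ℕ) (x : X) : ℕ :=
  ∑ t ∈ Finset.range (W + 1 - N), if F^[t] x ∈ D then 1 else 0

theorem sum_block {N M : ℕ} (hN : 0 < N) (hM : 0 < M) (f : ℕ → ℕ) (h0 : f 0 = 1)
    (hf : ∀ t, 0 < t → t < N → f t = 0) :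
    ∑ t ∈ Finset.range M, f t = 1 + ∑ t ∈ Finset.range (M - N), f (N + t) := by
  have h1 : ∀ K, 0 < K → K ≤ N → ∑ t ∈ Finset.range K, f t = 1 := by
    intro K hK hKN
    rw [Finset.sum_eq_single 0, h0]
    · intro t ht ht0
      exact hf t (Nat.pos_of_ne_zero ht0) (lt_of_lt_of_le (Finset.mem_range.mp ht) hKN)
    · intro h
      exact absurd (Finset.mem_range.mpr hK) h
  rcases le_or_gt M N with h | h
  · rw [h1 M hM h, Nat.sub_eq_zero_of_le h, Finset.sum_range_zero, add_zero]
  · obtain ⟨k, rfl⟩ := Nat.exists_eq_add_of_lt h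
    rw [show N + k + 1 = N + (k + 1) by ring, Finset.sum_range_add, h1 N hN le_rfl,
      Nat.add_sub_cancel_left]

theorem vis_skip {X : Type*} (F : X → X) (D : Set X) (N W : ℕ) (x : X)
    (h : W + 1 < N ∨ x ∉ D) : vis F D N (W + 1) x = vis F D N W (F x) := by
  classical
  unfold vis
  rcases le_or_gt N (W + 1) with hN | hN
  · have hx : x ∉ D := by
      rcases h with h | h
      · omega
      · exact h
    rw [show W + 1 + 1 - N = (W + 1 - N) + 1 by omega, Finset.sum_range_succ']
    rw [Function.iterate_zero, id, if_neg hx, add_zero]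
    rfl
  · rw [show W + 1 + 1 - N = 0 by omega, show W + 1 - N = 0 by omega]
    simp

theorem vis_block {X : Type*} (F : X → X) (D : Set X) (N : ℕ) (hN : 0 < N)
    (hdisj : ∀ x ∈ D, ∀ j, 0 < j → j < N → F^[j] x ∉ D) (W : ℕ) (x : X) (hx : x ∈ D) :
    vis F D N (N + W) x = 1 + vis F D N W (F^[N] x) := by
  classical
  unfold vis
  rw [sum_block hN (by omega) _ (by simp [hx]) (fun t h0 h1 => if_neg (hdisj x hx t h0 h1))]
  congr 1
  rw [show N + W + 1 - N - N = W + 1 - N by omega]
  refine Finset.sum_congr rfl fun t _ => ?_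
  rw [add_comm N t, Function.iterate_add_apply]

theorem cov_vis {X : Type*} (F : X → X) (D : Set X) (N : ℕ) (hN : 0 < N)
    (hdisj : ∀ x ∈ D, ∀ j, 0 < j → j < N → F^[j] x ∉ D) (W : ℕ) :
    ∀ x, N * vis F D N W x ≤ W ∧ Cov F D N x W (W - N * vis F D N W x) := by
  induction W using Nat.strong_induction_on with
  | _ W ih =>
    intro x
    by_cases hcase : N ≤ W ∧ x ∈ D
    · obtain ⟨hNW, hx⟩ := hcase
      obtain ⟨k, rfl⟩ := Nat.exists_eq_add_of_le hNW
      obtain ⟨h1, h2⟩ := ih k (by omega) (F^[N] x)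
      rw [vis_block F D N hN hdisj k x hx]
      refine ⟨by rw [mul_add, mul_one]; omega, ?_⟩
      rw [mul_add, mul_one, Nat.add_sub_add_left]
      exact Cov.block x k _ hx h2
    · rcases Nat.eq_zero_or_pos W with rfl | hW
      · have h0 : vis F D N 0 x = 0 := by
          unfold vis
          rw [show 0 + 1 - N = 0 by omega, Finset.sum_range_zero]
        rw [h0]
        exact ⟨by simp, Cov.nil _ _⟩
      · obtain ⟨k, rfl⟩ : ∃ k, W = k + 1 := ⟨W - 1, by omega⟩
        have h : k + 1 < N ∨ x ∉ D := by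
          by_contra hcon
          push Not at hcon
          exact hcase hcon
        obtain ⟨h1, h2⟩ := ih k (by omega) (F x)
        rw [vis_skip F D N k x h]
        refine ⟨by omega, ?_⟩
        rw [show k + 1 - N * vis F D N k (F x) = (k - N * vis F D N k (F x)) + 1 by omega]
        exact Cov.skip x k _ h2

theorem zone_aux {X : Type*} [TopologicalSpace X] [MeasurableSpace X] [BorelSpace X]
    (ν : Measure X) [IsProbabilityMeasure ν] (F : X → X) (hFc : Continuous F)
    (hF : MeasurePreserving F ν ν)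
    (N : ℕ) (hN : 0 < N) (D : Set X) (hD : MeasurableSet D) (hDf : ν (frontier D) = 0)
    (hdisj : ∀ x ∈ D, ∀ j, 0 < j → j < N → F^[j] x ∉ D) (γ : ℝ) (hγ : 0 < γ)
    (hγD : 1 - γ ≤ N * (ν D).toReal)
    (hrot : Tendsto (fun m : ℕ => ∫ x, |(∑ k ∈ Finset.range m,
      D.indicator (fun _ => (1 : ℝ)) (F^[k] x)) / m - (ν D).toReal| ∂ν) atTop (𝓝 0)) :
    ∃ Z : ℕ → Set X, (∀ W, MeasurableSet (Z W)) ∧ (∀ W, ν (frontier (Z W)) = 0) ∧
      Tendsto (fun W => ν (Z W)) atTop (𝓝 1) ∧
      ∀ W, ∀ x ∈ Z W, ∃ g : ℕ, (g : ℝ) ≤ 2 * γ * W ∧ Cov F D N x W g := by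
  classical
  have hvis : ∀ W x, vis F D N W x =
      ((Finset.range (W + 1 - N)).filter (fun t => x ∈ (F^[t]) ⁻¹' D)).card := by
    intro W x
    rw [Finset.card_filter]
    rfl
  have hZeq : ∀ W : ℕ, {x | (W : ℝ) - 2 * γ * W ≤ N * (vis F D N W x : ℝ)} =
      {x | (fun s : Finset ℕ => (W : ℝ) - 2 * γ * W ≤ N * (s.card : ℝ))
        ((Finset.range (W + 1 - N)).filter (fun t => x ∈ (F^[t]) ⁻¹' D))} := by
    intro W
    ext x
    simp only [mem_ofPred_eq, hvis]
  have hZm : ∀ W : ℕ, MeasurableSet {x | (W : ℝ) - 2 * γ * W ≤ N * (vis F D N W x : ℝ)} := by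
    intro W
    rw [hZeq]
    exact measurableSet_pred (Finset.range (W + 1 - N)) (fun t => (F^[t]) ⁻¹' D)
      (fun t _ => (hFc.measurable.iterate t) hD)
      (fun s : Finset ℕ => (W : ℝ) - 2 * γ * W ≤ N * (s.card : ℝ))
  refine ⟨fun W => {x | (W : ℝ) - 2 * γ * W ≤ N * (vis F D N W x : ℝ)}, hZm, ?_, ?_, ?_⟩
  · intro W
    simp only [hZeq]
    exact nf_pred (Finset.range (W + 1 - N)) (fun t => (F^[t]) ⁻¹' D)
      (fun t _ => nf_preimage hFc hF t hDf)
      (fun s : Finset ℕ => (W : ℝ) - 2 * γ * W ≤ N * (s.card : ℝ))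
  · have hNpos : (0 : ℝ) < N := by exact_mod_cast hN
    set c : ℝ := γ / (2 * N) with hc
    have hcpos : 0 < c := by positivity
    set g : ℕ → X → ℝ := fun m x => |(∑ k ∈ Finset.range m,
      D.indicator (fun _ => (1 : ℝ)) (F^[k] x)) / m - (ν D).toReal| with hg
    have hgm : ∀ m, Measurable (g m) := by
      intro m
      refine Measurable.abs ?_
      refine Measurable.sub_const (Measurable.div_const ?_ _) _
      refine Finset.measurable_sum _ fun k _ => ?_
      exact (measurable_const.indicator hD).comp (hFc.measurable.iterate k)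
    have hgi : ∀ m, Integrable (g m) ν := by
      intro m
      refine Integrable.abs ?_
      refine Integrable.sub (Integrable.div_const ?_ _) (integrable_const _)
      refine integrable_finsetSum _ fun k _ => ?_
      exact (hF.iterate k).integrable_comp_of_integrable ((integrable_const (1 : ℝ)).indicator hD)
    -- the complement is small
    have hsub : ∀ᶠ W : ℕ in atTop, ν.real ({x | (W : ℝ) - 2 * γ * W ≤
        N * (vis F D N W x : ℝ)}ᶜ) ≤ (∫ x, g (W + 1 - N) x ∂ν) / c := by
      obtain ⟨W₀, hW₀⟩ := exists_nat_ge (2 * (N * |1 - 3 / 2 * γ|) / γ)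
      filter_upwards [eventually_ge_atTop (max W₀ N)] with W hW
      have hW1 : (W₀ : ℝ) ≤ W := by exact_mod_cast (le_max_left _ _).trans hW
      have hW2 : N ≤ W := (le_max_right _ _).trans hW
      have hmpos : 0 < W + 1 - N := by omega
      have hm : ((W + 1 - N : ℕ) : ℝ) = W + 1 - N := by
        rw [Nat.cast_sub (by omega)]
        push_cast
        ring
      have h1 : ({x | (W : ℝ) - 2 * γ * W ≤ N * (vis F D N W x : ℝ)}ᶜ : Set X) ⊆
          {x | c ≤ g (W + 1 - N) x} := by
        intro x hx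
        rw [mem_compl_iff, mem_ofPred_eq, not_le] at hx
        rw [mem_ofPred_eq]
        by_contra hcon
        rw [not_le] at hcon
        have hsum : (∑ k ∈ Finset.range (W + 1 - N),
            D.indicator (fun _ => (1 : ℝ)) (F^[k] x)) = vis F D N W x := by
          unfold vis
          rw [Nat.cast_sum]
          refine Finset.sum_congr rfl fun k _ => ?_
          by_cases hk : F^[k] x ∈ D
          · simp [hk]
          · simp [hk]
        have h2 : |(vis F D N W x : ℝ) / ((W + 1 - N : ℕ) : ℝ) - (ν D).toReal| < c := by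
          rw [← hsum]
          exact hcon
        have h3 : (ν D).toReal - c < (vis F D N W x : ℝ) / ((W + 1 - N : ℕ) : ℝ) := by
          have := (abs_lt.mp h2).1
          linarith
        have hmpos' : (0 : ℝ) < ((W + 1 - N : ℕ) : ℝ) := by exact_mod_cast hmpos
        rw [lt_div_iff₀ hmpos', hm] at h3
        rw [hm] at hmpos'
        have h4 : (N : ℝ) * (((ν D).toReal - c) * ((W : ℝ) + 1 - N)) < W - 2 * γ * W :=
          lt_of_le_of_lt (mul_le_mul_of_nonneg_left h3.le hNpos.le) hx
        have hNc : N * c = γ / 2 := by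
          rw [hc]
          field_simp
        have h5 : (1 - 3 / 2 * γ) * ((W : ℝ) + 1 - N) ≤
            (N : ℝ) * (((ν D).toReal - c) * ((W : ℝ) + 1 - N)) := by
          rw [← mul_assoc]
          refine mul_le_mul_of_nonneg_right ?_ hmpos'.le
          rw [mul_sub, hNc]
          linarith
        have h6 : 2 * (N * |1 - 3 / 2 * γ|) ≤ γ * W := by
          have h7 := hW₀.trans hW1
          rw [div_le_iff₀ hγ] at h7
          linarith
        have h8 : (1 - 3 / 2 * γ) * ((N : ℝ) - 1) ≤ N * |1 - 3 / 2 * γ| := by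
          have hN1 : (1 : ℝ) ≤ N := by exact_mod_cast hN
          calc (1 - 3 / 2 * γ) * ((N : ℝ) - 1) ≤ |1 - 3 / 2 * γ| * ((N : ℝ) - 1) :=
                mul_le_mul_of_nonneg_right (le_abs_self _) (by linarith)
            _ ≤ N * |1 - 3 / 2 * γ| := by
                rw [mul_comm]
                exact mul_le_mul_of_nonneg_right (by linarith) (abs_nonneg _)
        nlinarith
      have h9 := mul_meas_ge_le_integral_of_nonneg (μ := ν) (f := g (W + 1 - N))
        (ae_of_all _ fun x => abs_nonneg _) (hgi _) c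
      rw [le_div_iff₀ hcpos, mul_comm]
      refine le_trans (mul_le_mul_of_nonneg_left ?_ hcpos.le) h9
      exact measureReal_mono h1
    have hlim : Tendsto (fun W : ℕ => (∫ x, g (W + 1 - N) x ∂ν) / c) atTop (𝓝 0) := by
      have h1 : Tendsto (fun W : ℕ => W + 1 - N) atTop atTop :=
        tendsto_atTop.mpr fun b => by
          filter_upwards [eventually_ge_atTop (b + N)] with W hW
          omega
      have h2 := (hrot.comp h1).div_const c
      rw [zero_div] at h2
      exact h2
    have h0 : Tendsto (fun W : ℕ => ν.real ({x | (W : ℝ) - 2 * γ * W ≤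
        N * (vis F D N W x : ℝ)}ᶜ)) atTop (𝓝 0) :=
      tendsto_of_tendsto_of_tendsto_of_le_of_le' tendsto_const_nhds hlim
        (Eventually.of_forall fun W => measureReal_nonneg) hsub
    have h1 : Tendsto (fun W : ℕ => ν.real {x | (W : ℝ) - 2 * γ * W ≤
        N * (vis F D N W x : ℝ)}) atTop (𝓝 1) := by
      have h2 := h0.const_sub 1
      rw [sub_zero] at h2
      refine h2.congr fun W => ?_
      rw [probReal_compl_eq_one_sub (hZm W)]
      ring
    have h3 := ENNReal.tendsto_ofReal h1
    rw [ENNReal.ofReal_one] at h3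
    refine h3.congr fun W => ?_
    rw [ofReal_measureReal]
  · intro W x hx
    obtain ⟨h1, h2⟩ := cov_vis F D N hN hdisj W x
    refine ⟨_, ?_, h2⟩
    rw [Nat.cast_sub h1, Nat.cast_mul]
    have hx' : (W : ℝ) - 2 * γ * W ≤ N * (vis F D N W x : ℝ) := hx
    linarith

end Pool.Agent.Helper49.Weiss
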