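import Pool.Agent.Helper38.Weiss.Api
import Pool.Agent.Helper36.Weiss.U2
import Pool.Agent.Helper49.Weiss.Zone

/-! MP_6b0aee_an, packet W-G: packings with the right frequencies. -/

open Set Filter Topology MeasureTheory Pool.Agent.Helper38.Weiss

namespace Pool.Agent.Helper49.Weiss

variable {X : Type*} {n : ℕ}

theorem mem_word_iff (F : X → X) (P : X → Fin n) (L : ℕ) (a : ℕ) (w : Fin L → Fin n) (x : X) :
    word P L (orb F x) a = w ↔ ∀ s : Fin L, P (F^[a + s] x) = w s := by
  rw [funext_iff]
  rfl

theorem word_set_eq (F : X → X) (P : X → Fin n) (L : ℕ) (a : ℕ) (w : Fin L → Fin n) :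
    {x | word P L (orb F x) a = w} =
      ⋂ s ∈ (Finset.univ : Finset (Fin L)), (F^[a + (s : ℕ)]) ⁻¹' (P ⁻¹' {w s}) := by
  ext x
  rw [mem_ofPred_eq, mem_word_iff]
  simp

/-- the points whose word at the time `j.1` is `j.2` -/
def wset (F : X → X) (P : X → Fin n) (L : ℕ) (j : ℕ × (Fin L → Fin n)) : Set X :=
  {x | word P L (orb F x) j.1 = j.2}

open Classical in
/-- the condition on the set of pairs (start, word) -/
def nearQ (L : ℕ) (q : (Fin L → Fin n) → ℝ) (T : ℕ) (c : ℝ)
    (S : Finset (ℕ × (Fin L → Fin n))) : Prop :=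
  ∑ w : Fin L → Fin n, |(L : ℝ) * ((S.filter (fun j => j.2 = w)).card : ℝ) - q w * T| ≤ c

open Classical in
theorem near_eq (F : X → X) (P : X → Fin n) (L : ℕ) (q : (Fin L → Fin n) → ℝ)
    (A : Finset ℕ) (T : ℕ) (c : ℝ) :
    {x | Near P L q A (orb F x) T c} = {x | nearQ L q T c
      ((A ×ˢ (Finset.univ : Finset (Fin L → Fin n))).filter (fun j => x ∈ wset F P L j))} := by
  ext x
  simp only [mem_ofPred_eq, Near, nearQ]
  have h1 : ∀ w : Fin L → Fin n, cnt P L A (orb F x) w =
      (((A ×ˢ (Finset.univ : Finset (Fin L → Fin n))).filter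
        (fun j => x ∈ wset F P L j)).filter (fun j => j.2 = w)).card := by
    intro w
    unfold cnt
    refine Finset.card_bij (fun a _ => (a, w)) ?_ ?_ ?_
    · intro a ha
      rw [Finset.mem_filter] at ha
      rw [Finset.mem_filter, Finset.mem_filter, Finset.mem_product]
      exact ⟨⟨⟨ha.1, Finset.mem_univ _⟩, ha.2⟩, rfl⟩
    · intro a _ b _ hab
      exact (Prod.mk.inj hab).1
    · rintro ⟨a, v⟩ h
      rw [Finset.mem_filter, Finset.mem_filter, Finset.mem_product] at h
      obtain ⟨⟨⟨h1, _⟩, h2⟩, h3⟩ := h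
      simp only at h1 h2 h3
      subst h3
      exact ⟨a, Finset.mem_filter.mpr ⟨h1, h2⟩, rfl⟩
  simp only [h1]

theorem measurableSet_near {X : Type*} [MeasurableSpace X] (F : X → X) (hF : Measurable F)
    {n : ℕ} (P : X → Fin n) (hP : Measurable P) (L : ℕ) (q : (Fin L → Fin n) → ℝ)
    (A : Finset ℕ) (T : ℕ) (c : ℝ) : MeasurableSet {x | Near P L q A (orb F x) T c} := by
  rw [near_eq]
  refine measurableSet_pred (A ×ˢ (Finset.univ : Finset (Fin L → Fin n)))
    (wset F P L) (fun j _ => ?_) (nearQ L q T c)
  unfold wset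
  rw [word_set_eq]
  exact Finset.measurableSet_biInter _ fun s _ => (hF.iterate _) (hP (measurableSet_singleton _))

theorem frontier_near {X : Type*} [TopologicalSpace X] [MeasurableSpace X] [BorelSpace X]
    (ν : Measure X) (F : X → X) (hFc : Continuous F) (hF : MeasurePreserving F ν ν) {n : ℕ}
    (P : X → Fin n) (hPf : ∀ i, ν (frontier (P ⁻¹' {i})) = 0) (L : ℕ)
    (q : (Fin L → Fin n) → ℝ) (A : Finset ℕ) (T : ℕ) (c : ℝ) :
    ν (frontier {x | Near P L q A (orb F x) T c}) = 0 := by
  rw [near_eq]
  refine nf_pred (A ×ˢ (Finset.univ : Finset (Fin L → Fin n)))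
    (wset F P L) (fun j _ => ?_) (nearQ L q T c)
  unfold wset
  rw [word_set_eq]
  exact Pool.Agent.Helper36.Weiss.nf_biInter _ _ fun s _ => nf_preimage hFc hF _ (hPf _)

/-- the start times -/
def startT (L m : ℕ) (j : ℕ × ℕ) : ℕ := j.1 * (m * L + 1) + j.2 * L

theorem startT_lt {L m : ℕ} {i k i' k' : ℕ} (hk : k < m) (h : i < i') :
    startT L m (i, k) + L ≤ startT L m (i', k') := by
  unfold startT
  simp only
  have h1 : (k + 1) * L ≤ m * L := Nat.mul_le_mul_right _ hk
  have h2 : (i + 1) * (m * L + 1) ≤ i' * (m * L + 1) := Nat.mul_le_mul_right _ h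
  nlinarith

theorem startT_lt' {L m : ℕ} {i k k' : ℕ} (h : k < k') :
    startT L m (i, k) + L ≤ startT L m (i, k') := by
  unfold startT
  simp only
  have h1 : (k + 1) * L ≤ k' * L := Nat.mul_le_mul_right _ h
  nlinarith

theorem startT_injOn {L m : ℕ} (hL : 0 < L) :
    Set.InjOn (startT L m) (Finset.range L ×ˢ Finset.range m : Finset (ℕ × ℕ)) := by
  rintro ⟨i, k⟩ h ⟨i', k'⟩ h' heq
  simp only [Finset.coe_product, Finset.coe_range, Set.mem_prod, Set.mem_Iio] at h h'
  rcases lt_trichotomy i i' with h1 | h1 | h1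
  · have := startT_lt (L := L) (k' := k') h.2 h1
    omega
  · subst h1
    rcases lt_trichotomy k k' with h2 | h2 | h2
    · have := startT_lt' (L := L) (m := m) (i := i) h2
      omega
    · rw [h2]
    · have := startT_lt' (L := L) (m := m) (i := i) h2
      omega
  · have := startT_lt (L := L) (k' := k) h'.2 h1
    omega

theorem packing_startT {L T m : ℕ} (hL : 0 < L) (hm : m = (T - L) / (L * L)) :
    Packing L T ((Finset.range L ×ˢ Finset.range m).image (startT L m)) := by
  constructor
  · intro a ha
    obtain ⟨⟨i, k⟩, hik, rfl⟩ := Finset.mem_image.mp ha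
    rw [Finset.mem_product, Finset.mem_range, Finset.mem_range] at hik
    simp only at hik
    have h1 : m * (L * L) ≤ T - L := by
      rw [hm]
      exact Nat.div_mul_le_self _ _
    have hm1 : 0 < m := by omega
    have h2 : 1 * (L * L) ≤ m * (L * L) := Nat.mul_le_mul_right _ hm1
    have h3 : 0 < L * L := Nat.mul_pos hL hL
    have h4 : m * (L * L) + L ≤ T := by omega
    unfold startT
    simp only
    have h5 : (k + 1) * L ≤ m * L := Nat.mul_le_mul_right _ hik.2
    have h6 : (i + 1) * (m * L + 1) ≤ L * (m * L + 1) := Nat.mul_le_mul_right _ hik.1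
    nlinarith
  · intro a ha a' ha' hlt
    obtain ⟨⟨i, k⟩, hik, rfl⟩ := Finset.mem_image.mp ha
    obtain ⟨⟨i', k'⟩, hik', rfl⟩ := Finset.mem_image.mp ha'
    rw [Finset.mem_product, Finset.mem_range, Finset.mem_range] at hik hik'
    simp only at hik hik'
    rcases lt_trichotomy i i' with h1 | h1 | h1
    · exact startT_lt hik.2 h1
    · subst h1
      rcases lt_trichotomy k k' with h2 | h2 | h2
      · exact startT_lt' h2
      · subst h2
        exact absurd hlt (lt_irrefl _)
      · have := startT_lt' (L := L) (m := m) (i := i) h2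
        omega
    · have := startT_lt (L := L) (k' := k) hik'.2 h1
      omega

theorem cnt_startT (F : X → X) (P : X → Fin n) {L : ℕ} (hL : 0 < L) (m : ℕ)
    (w : Fin L → Fin n) (x : X) :
    (cnt P L ((Finset.range L ×ˢ Finset.range m).image (startT L m)) (orb F x) w : ℝ) =
      ∑ i ∈ Finset.range L, ∑ k ∈ Finset.range m,
        ({x | ∀ s : Fin L, P (F^[s] x) = w s}).indicator (fun _ => (1 : ℝ))
          (F^[i * (m * L + 1) + k * L] x) := by
  classical
  unfold cnt
  rw [Finset.card_filter, Finset.sum_image (startT_injOn hL), Finset.sum_product]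
  push_cast
  refine Finset.sum_congr rfl fun i _ => Finset.sum_congr rfl fun k _ => ?_
  rw [Set.indicator_apply]
  congr 1
  rw [mem_word_iff, mem_ofPred_eq]
  refine propext (forall_congr' fun s => ?_)
  unfold startT
  simp only
  rw [add_comm _ (s : ℕ), Function.iterate_add_apply]

theorem exists_packings_aux {X : Type*} [MeasurableSpace X] (ν : Measure X)
    [IsProbabilityMeasure ν] (F : X → X) (hF : MeasurePreserving F ν ν) {n : ℕ}
    (P : X → Fin n) (hP : Measurable P) (L : ℕ) (hL : 0 < L)
    (hrot : ∀ s : Set X, MeasurableSet s → Tendsto (fun m : ℕ => ∫ x,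
      |(∑ i ∈ Finset.range L, ∑ k ∈ Finset.range m,
      s.indicator (fun _ => (1 : ℝ)) (F^[i * (m * L + 1) + k * L] x)) / (L * m) -
        (ν s).toReal| ∂ν) atTop (𝓝 0)) (hsum : ∑ w, law ν F P L w ≤ 1) :
    ∃ A : ℕ → Finset ℕ, (∀ T, Packing L T (A T)) ∧ ∀ δ > 0,
      Tendsto (fun T : ℕ => ν {x | Near P L (law ν F P L) (A T) (orb F x) T (δ * T)})
        atTop (𝓝 1) := by
  classical
  have hlaw0 : ∀ w, 0 ≤ law ν F P L w := fun w => ENNReal.toReal_nonneg
  refine ⟨fun T => (Finset.range L ×ˢ Finset.range ((T - L) / (L * L))).image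
    (startT L ((T - L) / (L * L))), fun T => packing_startT hL rfl, ?_⟩
  intro δ hδ
  set S : (Fin L → Fin n) → Set X := fun w => {x | ∀ s : Fin L, P (F^[s] x) = w s} with hS
  have hSm : ∀ w, MeasurableSet (S w) := by
    intro w
    have : S w = ⋂ s : Fin L, (F^[(s : ℕ)]) ⁻¹' (P ⁻¹' {w s}) := by
      ext x
      simp [hS]
    rw [this]
    exact MeasurableSet.iInter fun s =>
      (hF.measurable.iterate _) (hP (measurableSet_singleton _))
  set g : (Fin L → Fin n) → ℕ → X → ℝ := fun w m x =>
    |(∑ i ∈ Finset.range L, ∑ k ∈ Finset.range m,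
      (S w).indicator (fun _ => (1 : ℝ)) (F^[i * (m * L + 1) + k * L] x)) / (L * m) -
        (ν (S w)).toReal| with hg
  have hgi : ∀ w m, Integrable (g w m) ν := by
    intro w m
    refine Integrable.abs ?_
    refine Integrable.sub (Integrable.div_const ?_ _) (integrable_const _)
    refine integrable_finsetSum _ fun i _ => integrable_finsetSum _ fun k _ => ?_
    exact (hF.iterate _).integrable_comp_of_integrable
      ((integrable_const (1 : ℝ)).indicator (hSm w))
  set K : ℝ := (Fintype.card (Fin L → Fin n) : ℝ) with hK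
  have hK0 : 0 ≤ K := Nat.cast_nonneg _
  set c : ℝ := δ / (2 * (K + 1)) with hc
  have hcpos : 0 < c := by positivity
  set M : ℕ → ℕ := fun T => (T - L) / (L * L) with hM
  have hLL : 0 < L * L := Nat.mul_pos hL hL
  have hMlim : Tendsto M atTop atTop := by
    refine tendsto_atTop.mpr fun b => ?_
    filter_upwards [eventually_ge_atTop (L + b * (L * L))] with T hT
    exact (Nat.le_div_iff_mul_le hLL).mpr (by omega)
  have hsub : ∀ᶠ T : ℕ in atTop, ν.real ({x | Near P L (law ν F P L)
      ((Finset.range L ×ˢ Finset.range (M T)).image (startT L (M T))) (orb F x) T (δ * T)}ᶜ) ≤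
        ∑ w, (∫ x, g w (M T) x ∂ν) / c := by
    obtain ⟨T₀, hT₀⟩ := exists_nat_ge (2 * ((L : ℝ) + L * L) / δ)
    filter_upwards [eventually_ge_atTop (max T₀ (L + L * L))] with T hT
    have hT1 : (T₀ : ℝ) ≤ T := by exact_mod_cast (le_max_left _ _).trans hT
    have hT2 : L + L * L ≤ T := (le_max_right _ _).trans hT
    have hm1 : 0 < M T := Nat.div_pos (by omega) hLL
    have hm2 : M T * (L * L) ≤ T - L := Nat.div_mul_le_self _ _
    have hm3 : T - L < (M T + 1) * (L * L) := by
      have := Nat.lt_div_mul_add (a := T - L) hLL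
      calc T - L < (T - L) / (L * L) * (L * L) + L * L := this
        _ = (M T + 1) * (L * L) := by ring
    have hm4 : (M T : ℝ) * (L * L) ≤ T := by
      have : M T * (L * L) ≤ T := by omega
      exact_mod_cast this
    have hm5 : (T : ℝ) ≤ (M T : ℝ) * (L * L) + (L + L * L) := by
      have : T ≤ M T * (L * L) + (L + L * L) := by
        have h : (M T + 1) * (L * L) = M T * (L * L) + L * L := by ring
        omega
      exact_mod_cast this
    have hLpos : (0 : ℝ) < L := by exact_mod_cast hL
    have hmpos : (0 : ℝ) < M T := by exact_mod_cast hm1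
    have hLm : (0 : ℝ) < L * M T := by positivity
    have h1 : ({x | Near P L (law ν F P L)
      ((Finset.range L ×ˢ Finset.range (M T)).image (startT L (M T))) (orb F x) T (δ * T)}ᶜ :
        Set X) ⊆ ⋃ w, {x | c ≤ g w (M T) x} := by
      intro x hx
      by_contra hcon
      rw [mem_iUnion] at hcon
      push Not at hcon
      apply hx
      rw [mem_ofPred_eq]
      unfold Near
      have h2 : ∀ w, |(L : ℝ) * cnt P L ((Finset.range L ×ˢ Finset.range (M T)).image
          (startT L (M T))) (orb F x) w - law ν F P L w * T| ≤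
            T * c + law ν F P L w * (L + L * L) := by
        intro w
        have h3 : g w (M T) x < c := not_le.mp (hcon w)
        set q := law ν F P L w with hq
        set v : ℝ := (cnt P L ((Finset.range L ×ˢ Finset.range (M T)).image
          (startT L (M T))) (orb F x) w : ℝ) with hv
        have h4 : |v / (L * M T) - q| < c := by
          have h5 : g w (M T) x = |v / (L * M T) - q| := by
            rw [hv, cnt_startT F P hL]
            rfl
          rwa [h5] at h3
        have h6 : (L : ℝ) * v - q * T =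
            (L * (L * M T)) * (v / (L * M T) - q) + q * ((M T) * (L * L) - T) := by
          field_simp
          ring
        rw [h6]
        refine (abs_add_le _ _).trans ?_
        refine add_le_add ?_ ?_
        · rw [abs_mul, abs_of_pos (by positivity : (0 : ℝ) < L * (L * M T))]
          have h7 : (L : ℝ) * (L * M T) ≤ T := by linarith
          exact mul_le_mul h7 h4.le (abs_nonneg _) (Nat.cast_nonneg _)
        · rw [abs_mul, abs_of_nonneg (hlaw0 w)]
          refine mul_le_mul_of_nonneg_left ?_ (hlaw0 w)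
          rw [abs_le]
          constructor
          · linarith
          · have : (0 : ℝ) ≤ L + L * L := by positivity
            linarith
      refine (Finset.sum_le_sum fun w _ => h2 w).trans ?_
      rw [Finset.sum_add_distrib, Finset.sum_const, Finset.card_univ, nsmul_eq_mul,
        ← Finset.sum_mul]
      have h8 : (Fintype.card (Fin L → Fin n) : ℝ) * (T * c) ≤ δ / 2 * T := by
        rw [← hK]
        have : K * c ≤ δ / 2 := by
          rw [hc, mul_div_assoc', div_le_div_iff₀ (by positivity) (by norm_num)]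
          nlinarith
        calc K * (T * c) = (K * c) * T := by ring
          _ ≤ δ / 2 * T := mul_le_mul_of_nonneg_right this (Nat.cast_nonneg _)
      have h9 : (∑ w, law ν F P L w) * ((L : ℝ) + L * L) ≤ δ / 2 * T := by
        have h10 : 2 * ((L : ℝ) + L * L) ≤ δ * T := by
          have := hT₀.trans hT1
          rw [div_le_iff₀ hδ] at this
          linarith
        calc (∑ w, law ν F P L w) * ((L : ℝ) + L * L) ≤ 1 * (L + L * L) :=
              mul_le_mul_of_nonneg_right hsum (by positivity)
          _ ≤ δ / 2 * T := by linarith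
      linarith
    refine (measureReal_mono h1).trans ?_
    refine (measureReal_iUnion_fintype_le _).trans ?_
    refine Finset.sum_le_sum fun w _ => ?_
    have h9 := mul_meas_ge_le_integral_of_nonneg (μ := ν) (f := g w (M T))
      (ae_of_all _ fun x => abs_nonneg _) (hgi w _) c
    rw [le_div_iff₀ hcpos, mul_comm]
    exact h9
  have hlim : Tendsto (fun T : ℕ => ∑ w, (∫ x, g w (M T) x ∂ν) / c) atTop (𝓝 0) := by
    have h1 : Tendsto (fun T : ℕ => ∑ w, (∫ x, g w (M T) x ∂ν) / c) atTop
        (𝓝 (∑ _w : Fin L → Fin n, 0 / c)) := by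
      refine tendsto_finsetSum _ fun w _ => ?_
      exact ((hrot (S w) (hSm w)).comp hMlim).div_const c
    simpa using h1
  have hZm : ∀ T : ℕ, MeasurableSet {x | Near P L (law ν F P L)
      ((Finset.range L ×ˢ Finset.range (M T)).image (startT L (M T))) (orb F x) T (δ * T)} :=
    fun T => measurableSet_near F hF.measurable P hP L _ _ _ _
  have h0 := tendsto_of_tendsto_of_tendsto_of_le_of_le' tendsto_const_nhds hlim
      (Eventually.of_forall fun T => measureReal_nonneg) hsub
  have h2 := h0.const_sub 1
  rw [sub_zero] at h2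
  have h3 := ENNReal.tendsto_ofReal h2
  rw [ENNReal.ofReal_one] at h3
  refine h3.congr fun T => ?_
  rw [probReal_compl_eq_one_sub (hZm T), sub_sub_cancel, ofReal_measureReal]

end Pool.Agent.Helper49.Weiss
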