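import Pool.Agent.Helper38.Weiss.Api
import Pool.Agent.Helper23.Weiss.WF
import Pool.Agent.Helper88.Weiss.Ent
import Pool.Agent.Helper49.Weiss.Pack

/-! MP_6b0aee_an, packets W-G and W-Z in their final form. -/

open Set Filter Topology MeasureTheory Pool.Agent.Helper38.Weiss

namespace Pool.Agent.Helper49.Weiss

theorem exists_packings {X : Type*} [MeasurableSpace X] (ν : Measure X) [IsProbabilityMeasure ν]
    (F : X → X) (hF : Ergodic F ν) {n : ℕ} (P : X → Fin n) (hP : Measurable P) (L : ℕ)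
    (hL : 0 < L) :
    ∃ A : ℕ → Finset ℕ, (∀ T, Packing L T (A T)) ∧ ∀ δ > 0,
      Tendsto (fun T : ℕ => ν {x | Near P L (law ν F P L) (A T) (orb F x) T (δ * T)})
        atTop (𝓝 1) :=
  exists_packings_aux ν F hF.toMeasurePreserving P hP L hL
    (fun s hs => Pool.Agent.Helper23.Weiss.rot_ergodic ν F hF L hL s hs)
    (Pool.Agent.Helper88.Weiss.sum_law ν F hF.measurable P hP L).le

theorem zone {X : Type*} [TopologicalSpace X] [MeasurableSpace X] [BorelSpace X]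
    (ν : Measure X) [IsProbabilityMeasure ν] (F : X → X) (hFc : Continuous F) (hF : Ergodic F ν)
    (N : ℕ) (hN : 0 < N) (D : Set X) (hD : MeasurableSet D) (hDf : ν (frontier D) = 0)
    (hdisj : ∀ x ∈ D, ∀ j, 0 < j → j < N → F^[j] x ∉ D) (γ : ℝ) (hγ : 0 < γ)
    (hγD : 1 - γ ≤ N * (ν D).toReal) :
    ∃ Z : ℕ → Set X, (∀ W, MeasurableSet (Z W)) ∧ (∀ W, ν (frontier (Z W)) = 0) ∧
      Tendsto (fun W => ν (Z W)) atTop (𝓝 1) ∧
      ∀ W, ∀ x ∈ Z W, ∃ g : ℕ, (g : ℝ) ≤ 2 * γ * W ∧ Cov F D N x W g := by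
  refine zone_aux ν F hFc hF.toMeasurePreserving N hN D hD hDf hdisj γ hγ hγD ?_
  have h := Pool.Agent.Helper23.Weiss.rot_ergodic ν F hF 1 one_pos D hD
  simpa using h

end Pool.Agent.Helper49.Weiss
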