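import Pool.Agent.Helper38.Weiss.Api
import Pool.Agent.Helper10.Weiss.U4

/-! MP_6b0aee_an, packet W-A: averaging over permutations, size of a type class. -/

open Set Filter Topology MeasureTheory Pool.Agent.Helper38.Weiss

namespace Pool.Agent.Helper49.Weiss

theorem exists_perm_inter' {ι W : Type*} [Fintype ι] [DecidableEq ι] [Fintype W] [DecidableEq W]
    {m : ℕ} (τ : W → ℕ) (C : Finset (ι → W)) (S : Finset ((ι → W) × Fin m))
    (hC : ∀ w ∈ C, ∀ b, (Finset.univ.filter (fun i => w i = b)).card = τ b)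
    (hS : ∀ x ∈ S, ∀ b, (Finset.univ.filter (fun i => x.1 i = b)).card = τ b) :
    ∃ π : Equiv.Perm ι, C.card * S.card ≤
      (Finset.univ.filter (fun w : ι → W =>
        ∀ b, (Finset.univ.filter (fun i => w i = b)).card = τ b)).card *
      (S.filter (fun x => x.1 ∘ π ∈ C)).card := by
  classical
  set T : Finset (ι → W) := Finset.univ.filter (fun w : ι → W =>
    ∀ b, (Finset.univ.filter (fun i => w i = b)).card = τ b) with hT
  have memT : ∀ w, w ∈ T ↔ ∀ b, (Finset.univ.filter (fun i => w i = b)).card = τ b := by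
    intro w
    simp [hT]
  rcases S.eq_empty_or_nonempty with hSe | ⟨x₀, hx₀⟩
  · exact ⟨1, by simp [hSe]⟩
  set w₀ := x₀.1 with hw₀def
  set N : ℕ := (Finset.univ.filter (fun π : Equiv.Perm ι => w₀ ∘ π = w₀)).card with hN
  have hconst : ∀ w ∈ T, ∀ c ∈ T,
      (Finset.univ.filter (fun π : Equiv.Perm ι => w ∘ π = c)).card = N := by
    intro w hw c hc
    obtain ⟨σ, hσ⟩ : ∃ σ : Equiv.Perm ι, w₀ ∘ σ = w :=
      Pool.Agent.Helper10.Weiss.exists_perm_of_type fun b =>
        (hS x₀ hx₀ b).trans ((memT w).1 hw b).symm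
    obtain ⟨ρ, hρ⟩ : ∃ ρ : Equiv.Perm ι, w₀ ∘ ρ = c :=
      Pool.Agent.Helper10.Weiss.exists_perm_of_type fun b =>
        (hS x₀ hx₀ b).trans ((memT c).1 hc b).symm
    rw [hN]
    refine Finset.card_bij' (fun π _ => σ * π * ρ⁻¹) (fun π _ => σ⁻¹ * π * ρ) ?_ ?_ ?_ ?_
    · intro π hπ
      have h1 : w ∘ π = c := (Finset.mem_filter.mp hπ).2
      refine Finset.mem_filter.mpr ⟨Finset.mem_univ _, ?_⟩
      funext i
      have h2 := congrFun h1 (ρ⁻¹ i)
      rw [← hσ, ← hρ] at h2
      simpa using h2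
    · intro π hπ
      have h1 : w₀ ∘ π = w₀ := (Finset.mem_filter.mp hπ).2
      refine Finset.mem_filter.mpr ⟨Finset.mem_univ _, ?_⟩
      funext i
      have h2 := congrFun h1 (ρ i)
      rw [← hσ, ← hρ]
      simpa using h2
    · intro π _
      simp [mul_assoc]
    · intro π _
      simp [mul_assoc]
  have hST : ∀ x ∈ S, x.1 ∈ T := fun x hx => (memT x.1).2 (hS x hx)
  have hCT : ∀ w ∈ C, w ∈ T := fun w hw => (memT w).2 (hC w hw)
  have hTN : T.card * N = Fintype.card (Equiv.Perm ι) := by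
    have h1 : ∑ c ∈ T, (Finset.univ.filter (fun π : Equiv.Perm ι => w₀ ∘ π = c)).card =
        T.card * N := by
      rw [Finset.sum_congr rfl fun c hc => hconst w₀ (hST x₀ hx₀) c hc, Finset.sum_const,
        smul_eq_mul]
    rw [← h1, ← Finset.card_univ]
    refine (Finset.card_eq_sum_card_fiberwise (f := fun π : Equiv.Perm ι => w₀ ∘ π)
      (t := T) ?_).symm
    intro π _
    refine (memT _).2 fun b => ?_
    rw [← hS x₀ hx₀ b]
    refine Finset.card_bij (fun i _ => π i) ?_ ?_ ?_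
    · intro i hi
      simpa using hi
    · intro i _ j _ hij
      exact π.injective hij
    · intro j hj
      refine ⟨π.symm j, by simpa using hj, by simp⟩
  by_contra hcon
  push Not at hcon
  have h1 : ∑ π : Equiv.Perm ι, T.card * (S.filter (fun x => x.1 ∘ π ∈ C)).card <
      ∑ _π : Equiv.Perm ι, C.card * S.card :=
    Finset.sum_lt_sum_of_nonempty Finset.univ_nonempty fun π _ => hcon π
  have h2 : ∑ π : Equiv.Perm ι, (S.filter (fun x => x.1 ∘ π ∈ C)).card =
      S.card * (C.card * N) := by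
    have h3 : ∀ π : Equiv.Perm ι, (S.filter (fun x => x.1 ∘ π ∈ C)).card =
        ∑ x ∈ S, ∑ c ∈ C, if x.1 ∘ π = c then 1 else 0 := by
      intro π
      rw [Finset.card_filter]
      refine Finset.sum_congr rfl fun w _ => ?_
      rw [Finset.sum_ite_eq]
    simp only [h3]
    rw [Finset.sum_comm]
    rw [Finset.sum_congr rfl (g := fun _ => C.card * N), Finset.sum_const, smul_eq_mul]
    intro x hx
    rw [Finset.sum_comm]
    rw [Finset.sum_congr rfl (g := fun _ => N), Finset.sum_const, smul_eq_mul]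
    intro c hc
    rw [← hconst x.1 (hST x hx) c (hCT c hc), Finset.card_filter]
  rw [← Finset.mul_sum, h2, Finset.sum_const, smul_eq_mul, Finset.card_univ, ← hTN] at h1
  refine absurd h1 (not_lt.mpr (le_of_eq ?_))
  ring

theorem leq_typeClass {ι W : Type*} [Fintype ι] [DecidableEq ι] [Fintype W] [DecidableEq W]
    (κ : W → W → Prop) (τ : W → ℕ) (C : Finset (ι → W)) (hC : C.Nonempty)
    (hCτ : ∀ w ∈ C, ∀ b, (Finset.univ.filter (fun i => w i = b)).card = τ b) :
    Leq {w : ι → W | ∀ b, (Finset.univ.filter (fun i => w i = b)).card = τ b}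
      (fun w w' => ∃ i, κ (w i) (w' i)) (C : Set (ι → W)) (fun w w' => ∃ i, κ (w i) (w' i))
      (((Finset.univ.filter (fun w : ι → W =>
        ∀ b, (Finset.univ.filter (fun i => w i = b)).card = τ b)).card : ℝ) / C.card) := by
  classical
  intro m k hk E hE hE'
  obtain ⟨π, hπ⟩ := exists_perm_inter' τ C E hCτ hE
  have hinj : Function.Injective (fun x : (ι → W) × Fin m => (x.1 ∘ π, x.2)) := by
    intro x y hxy
    simp only [Prod.mk.injEq] at hxy
    refine Prod.ext ?_ hxy.2
    funext i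
    have := congrFun hxy.1 (π.symm i)
    simpa using this
  refine ⟨(E.filter (fun x => x.1 ∘ π ∈ C)).image (fun x => (x.1 ∘ π, x.2)), ?_, ?_, ?_⟩
  · intro z hz
    obtain ⟨x, hx, rfl⟩ := Finset.mem_image.1 hz
    exact (Finset.mem_filter.1 hx).2
  · intro z hz z' hz' hne
    obtain ⟨x, hx, rfl⟩ := Finset.mem_image.1 hz
    obtain ⟨y, hy, rfl⟩ := Finset.mem_image.1 hz'
    have hxy : x ≠ y := by
      rintro rfl
      exact hne rfl
    rcases hE' x (Finset.mem_filter.1 hx).1 y (Finset.mem_filter.1 hy).1 hxy with ⟨i, hi⟩ | h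
    · refine Or.inl ⟨π.symm i, ?_⟩
      simpa using hi
    · exact Or.inr h
  · rw [Finset.card_image_of_injective _ hinj]
    have hCpos : (0 : ℝ) < C.card := by exact_mod_cast hC.card_pos
    rw [div_mul_eq_mul_div, le_div_iff₀ hCpos, mul_comm]
    exact_mod_cast hπ

theorem card_typeClass_le {ι W : Type*} [Fintype ι] [DecidableEq ι] [Fintype W] [DecidableEq W]
    (q : W → ℝ) (hq : ∀ w, 0 ≤ q w) (hq1 : ∑ w, q w ≤ 1) (τ : W → ℕ)
    (hτ : ∀ w, 0 < τ w → 0 < q w) :
    ((Finset.univ.filter (fun w : ι → W =>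
      ∀ b, (Finset.univ.filter (fun i => w i = b)).card = τ b)).card : ℝ) ≤
      Real.exp (∑ w, (τ w : ℝ) * -Real.log (q w)) := by
  classical
  set T : Finset (ι → W) := Finset.univ.filter (fun w : ι → W =>
    ∀ b, (Finset.univ.filter (fun i => w i = b)).card = τ b) with hT
  have h1 : ∀ v ∈ T, ∏ i, q (v i) = ∏ w, q w ^ τ w := by
    intro v hv
    have hv' : ∀ b, (Finset.univ.filter (fun i => v i = b)).card = τ b :=
      (Finset.mem_filter.mp hv).2
    rw [← Finset.prod_fiberwise Finset.univ v (fun i => q (v i))]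
    refine Finset.prod_congr rfl fun b _ => ?_
    rw [← hv' b]
    refine Finset.prod_eq_pow_card fun i hi => ?_
    rw [(Finset.mem_filter.mp hi).2]
  have h2 : ∏ w, q w ^ τ w = Real.exp (-∑ w, (τ w : ℝ) * -Real.log (q w)) := by
    rw [← Finset.sum_neg_distrib, Real.exp_sum]
    refine Finset.prod_congr rfl fun w _ => ?_
    rcases Nat.eq_zero_or_pos (τ w) with h | h
    · simp [h]
    · rw [mul_neg, neg_neg, mul_comm, ← Real.rpow_def_of_pos (hτ w h), Real.rpow_natCast]
  have h3 : ∑ v ∈ T, ∏ i, q (v i) ≤ 1 := by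
    calc ∑ v ∈ T, ∏ i, q (v i) ≤ ∑ v : ι → W, ∏ i, q (v i) :=
          Finset.sum_le_sum_of_subset_of_nonneg (Finset.subset_univ _)
            fun v _ _ => Finset.prod_nonneg fun i _ => hq _
      _ = ∏ _i : ι, ∑ w, q w := by
          rw [Finset.prod_univ_sum]
          simp [Fintype.piFinset_univ]
      _ ≤ 1 := Finset.prod_le_one (fun i _ => Finset.sum_nonneg fun w _ => hq w) fun i _ => hq1
  rw [Finset.sum_congr rfl h1, Finset.sum_const, nsmul_eq_mul, h2, Real.exp_neg] at h3
  rw [← div_eq_mul_inv, div_le_one (Real.exp_pos _)] at h3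
  exact h3

end Pool.Agent.Helper49.Weiss
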